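import Pool.Agent.PLA.Final

/-!
# Colorings of pseudoline arrangements with quadratically long alternating paths
-/

namespace Pool.Agent.Results.MP_493113_co.LongAlternating

open PLA

/-- There are `c > 0` and `n₀` such that for every `n ≥ n₀`, every simple arrangement of `n`
pseudolines has a coloring of its pseudolines with two colors, both used, and an alternating dual
path (pairwise distinct faces, consecutive faces sharing an edge, consecutive shared edges of
different colors) with at least `c n²` faces. -/
theorem result : ∃ c : ℝ, 0 < c ∧ ∃ n₀ : ℕ, ∀ n ≥ n₀, ∀ A : Arrangement n, A.Simple →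
    ∃ col : Fin n → Bool, (∃ i, col i = true) ∧ (∃ i, col i = false) ∧
      ∃ (M : ℕ) (F : ℕ → Set (ℝ × ℝ)) (e : ℕ → Fin n),
        A.IsAlternatingPath col M F e ∧ c * (n : ℝ) ^ 2 ≤ M :=
  long_alternating

end Pool.Agent.Results.MP_493113_co.LongAlternating
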